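import Pool.Agent.W134.GR.Line
import Pool.Agent.W78.GR.Basic

/-!
GR-5: angular sums over lattices by van der Corput (real quadratic orders).

The elements `z` of the fundamental domain are written as `η² w`; the rows of the set of the `w`
are far from the diagonal `s1 w = s2 w`, so the derivatives of the angle along a row are large.
-/

set_option autoImplicit false

namespace Pool.Agent.W134.GR

open Finset
open Pool.Agent.H469R2.NK (e norm_e)
open Pool.Agent.W78.GR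

variable {t c : ℤ} {η : (Qd t c)ˣ}

/-! ### convex sets of integers -/

lemma convex_int (N : Finset ℤ) (hN : N.Nonempty)
    (hc : ∀ a ∈ N, ∀ b ∈ N, ∀ n, a ≤ n → n ≤ b → n ∈ N) :
    ∃ n₀ ∈ N, ∃ n₁ ∈ N, ∃ L : ℕ, (L : ℤ) = n₁ - n₀ + 1 ∧
      ∀ f : ℤ → ℂ, ∑ n ∈ N, f n = ∑ j ∈ range L, f (n₀ + j) := by
  refine ⟨N.min' hN, N.min'_mem hN, N.max' hN, N.max'_mem hN,
    (N.max' hN - N.min' hN + 1).toNat, ?_, ?_⟩
  · have := N.min'_le _ (N.max'_mem hN)
    omega
  · intro f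
    have h1 : N = (range (N.max' hN - N.min' hN + 1).toNat).image
        (fun j : ℕ => N.min' hN + (j : ℤ)) := by
      ext n
      rw [mem_image]
      constructor
      · intro hn
        have h2 := N.min'_le n hn
        have h3 := N.le_max' n hn
        refine ⟨(n - N.min' hN).toNat, ?_, by omega⟩
        rw [mem_range]
        omega
      · rintro ⟨j, hj, rfl⟩
        rw [mem_range] at hj
        exact hc _ (N.min'_mem hN) _ (N.max'_mem hN) _ (by omega) (by omega)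
    conv_lhs => rw [h1]
    rw [sum_image]
    intro a _ b _ hab
    have : (a : ℤ) = b := by
      have h2 : N.min' hN + (a : ℤ) = N.min' hN + (b : ℤ) := hab
      linarith
    exact_mod_cast this

/-! ### the shifted domain -/

/-- the conditions on `w = η⁻² z` -/
def PW (η : (Qd t c)ˣ) (Y : ℝ) (w : Qd t c) : Prop :=
  0 < s1 w ∧ s1 (η : Qd t c) ^ 2 * s1 w < s2 w ∧ s2 w ≤ s1 (η : Qd t c) ^ 4 * s1 w ∧
    Y / 4 < s1 w * s2 w ∧ s1 w * s2 w ≤ Y

/-- the element `η²` -/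
noncomputable def u2 (η : (Qd t c)ˣ) : Qd t c := (η : Qd t c) * (η : Qd t c)

/-- the element `η⁻²` -/
noncomputable def v2 (η : (Qd t c)ˣ) : Qd t c := star (η : Qd t c) * star (η : Qd t c)

section

variable (U : Un t c η)
include U

lemma six_lt : (6 : ℝ) < s1 (η : Qd t c) := by
  have := U.big
  have := U.five_le
  linarith

lemma star_eta_mul : star (η : Qd t c) * (η : Qd t c) = 1 := by
  rw [star_mul_self_tp U.disc U.pos, Un.nm_eta, Nat.cast_one]

lemma v2_mul_u2 : v2 η * u2 η = 1 := by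
  have h := star_eta_mul U
  unfold v2 u2
  calc star (η : Qd t c) * star (η : Qd t c) * ((η : Qd t c) * (η : Qd t c))
      = (star (η : Qd t c) * (η : Qd t c)) * (star (η : Qd t c) * (η : Qd t c)) := by ring
    _ = 1 := by rw [h, mul_one]

lemma u2_v2_mul (z : Qd t c) : u2 η * (v2 η * z) = z := by
  rw [← mul_assoc, mul_comm (u2 η), v2_mul_u2 U, one_mul]

lemma v2_u2_mul (z : Qd t c) : v2 η * (u2 η * z) = z := by
  rw [← mul_assoc, v2_mul_u2 U, one_mul]

lemma s1_u2 (w : Qd t c) : s1 (u2 η * w) = s1 (η : Qd t c) ^ 2 * s1 w := by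
  unfold u2
  rw [s1_mul U.disc, s1_mul U.disc]
  ring

lemma s2_u2 (w : Qd t c) : s1 (η : Qd t c) ^ 2 * s2 (u2 η * w) = s2 w := by
  unfold u2
  rw [s2_mul U.disc, s2_mul U.disc]
  have h := U.s1_mul_s2_eta
  calc s1 (η : Qd t c) ^ 2 * (s2 (η : Qd t c) * s2 (η : Qd t c) * s2 w)
      = (s1 (η : Qd t c) * s2 (η : Qd t c)) ^ 2 * s2 w := by ring
    _ = s2 w := by rw [h]; ring

lemma fd_u2_iff {Y : ℝ} (w : Qd t c) :
    (fd η (u2 η * w) ∧ Y / 4 < (nm (u2 η * w) : ℝ) ∧ (nm (u2 η * w) : ℝ) ≤ Y) ↔ PW η Y w := by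
  have h6 := six_lt U
  set E := s1 (η : Qd t c) with hE
  have hE0 : 0 < E := by linarith
  have hE2 : 0 < E ^ 2 := by positivity
  have h1 := s1_u2 U w
  have h2 := s2_u2 U w
  rw [← hE] at h1 h2
  constructor
  · rintro ⟨hf, h3, h4⟩
    obtain ⟨h5, h7⟩ := (U.fd_iff hf.1).1 hf
    have h8 := nm_tp U.disc hf.1
    have hp1 := hf.1.1
    have hp2 := hf.1.2
    rw [h8] at h3 h4
    rw [← hE] at h7
    have hprod : s1 (u2 η * w) * s2 (u2 η * w) = s1 w * s2 w := by
      rw [h1, ← h2]; ring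
    rw [hprod] at h3 h4
    rw [h1] at hp1 h5 h7
    have hw1 : 0 < s1 w := by
      by_contra hcon
      push Not at hcon
      nlinarith
    refine ⟨hw1, ?_, ?_, h3, h4⟩
    · rw [← hE, ← h2]
      exact h7
    · rw [← hE, ← h2]
      calc E ^ 2 * s2 (u2 η * w) ≤ E ^ 2 * (E ^ 2 * s1 w) := by gcongr
        _ = E ^ 4 * s1 w := by ring
  · rintro ⟨hw1, hw2, hw3, hw4, hw5⟩
    rw [← hE] at hw2 hw3
    have hw20 : 0 < s2 w := lt_trans (by positivity) hw2
    have hp1 : 0 < s1 (u2 η * w) := by rw [h1]; positivity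
    have hp2 : 0 < s2 (u2 η * w) := by
      by_contra hcon
      push Not at hcon
      nlinarith
    have htp : tp (u2 η * w) := ⟨hp1, hp2⟩
    have hprod : s1 (u2 η * w) * s2 (u2 η * w) = s1 w * s2 w := by
      rw [h1, ← h2]; ring
    refine ⟨(U.fd_iff htp).2 ⟨?_, ?_⟩, ?_, ?_⟩
    · have h3 : E ^ 2 * s2 (u2 η * w) ≤ E ^ 2 * (E ^ 2 * s1 w) := by
        rw [h2]
        calc s2 w ≤ E ^ 4 * s1 w := hw3
          _ = E ^ 2 * (E ^ 2 * s1 w) := by ring
      rw [h1]
      exact le_of_mul_le_mul_left h3 hE2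
    · rw [← hE, h1, h2]
      exact hw2
    · rw [nm_tp U.disc htp, hprod]
      exact hw4
    · rw [nm_tp U.disc htp, hprod]
      exact hw5

lemma ps_u2 (k : ℤ) {w : Qd t c} (hw : tp w) : ps η k (u2 η * w) = ps η k w := by
  unfold u2
  rw [mul_assoc, U.ps_eta_mul k (tp_mul U.disc U.pos hw), U.ps_eta_mul k hw]

/-- sizes -/
lemma PW_sizes {Y : ℝ} (hY : 1 ≤ Y) {w : Qd t c} (h : PW η Y w) :
    Real.sqrt Y / (2 * s1 (η : Qd t c) ^ 2) ≤ s1 w ∧ s1 w ≤ Real.sqrt Y ∧
    s2 w ≤ s1 (η : Qd t c) ^ 2 * Real.sqrt Y ∧ s1 w + Real.sqrt Y ≤ s2 w := by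
  obtain ⟨h1, h2, h3, h4, h5⟩ := h
  have h6 := six_lt U
  set E := s1 (η : Qd t c) with hE
  set r := Real.sqrt Y with hr
  set a := s1 w with ha
  set b := s2 w with hb
  have hE0 : 0 < E := by linarith
  have hr2 : r ^ 2 = Y := Real.sq_sqrt (by linarith)
  have hr1 : 1 ≤ r := Real.one_le_sqrt.2 hY
  have hb0 : 0 < b := lt_trans (by positivity) h2
  have hE36 : 36 < E ^ 2 := by nlinarith
  -- E a < r
  have e1 : E * a < r := by
    have : (E * a) ^ 2 < r ^ 2 := by
      have h7 : E ^ 2 * a * a < b * a := mul_lt_mul_of_pos_right h2 h1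
      calc (E * a) ^ 2 = E ^ 2 * a * a := by ring
        _ < b * a := h7
        _ = a * b := mul_comm _ _
        _ ≤ Y := h5
        _ = r ^ 2 := hr2.symm
    exact lt_of_pow_lt_pow_left₀ 2 (by linarith) this
  have e2 : r / 2 < E ^ 2 * a := by
    have : (r / 2) ^ 2 < (E ^ 2 * a) ^ 2 := by
      calc (r / 2) ^ 2 = Y / 4 := by rw [div_pow, hr2]; norm_num
        _ < a * b := h4
        _ ≤ a * (E ^ 4 * a) := by gcongr
        _ = (E ^ 2 * a) ^ 2 := by ring
    exact lt_of_pow_lt_pow_left₀ 2 (by positivity) this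
  have e3 : b ≤ E ^ 2 * r := by
    have : b ^ 2 ≤ (E ^ 2 * r) ^ 2 := by
      calc b ^ 2 = b * b := by ring
        _ ≤ (E ^ 4 * a) * b := by gcongr
        _ = E ^ 4 * (a * b) := by ring
        _ ≤ E ^ 4 * Y := by gcongr
        _ = (E ^ 2 * r) ^ 2 := by rw [← hr2]; ring
    exact le_of_sq_le_sq this (by positivity)
  have e4 : E * r / 2 < b := by
    have : (E * r / 2) ^ 2 < b ^ 2 := by
      calc (E * r / 2) ^ 2 = E ^ 2 * (Y / 4) := by rw [← hr2]; ring
        _ < E ^ 2 * (a * b) := by gcongr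
        _ = (E ^ 2 * a) * b := by ring
        _ < b * b := mul_lt_mul_of_pos_right h2 hb0
        _ = b ^ 2 := by ring
    exact lt_of_pow_lt_pow_left₀ 2 hb0.le this
  refine ⟨?_, ?_, e3, ?_⟩
  · rw [div_le_iff₀ (by positivity)]
    nlinarith
  · nlinarith
  · nlinarith

end

end Pool.Agent.W134.GR
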