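import Pool.Agent.W134.GR.Ang0

/-!
GR-5: angular sums over lattices by van der Corput (real quadratic orders): rows, the annulus and
the main theorem.
-/

set_option autoImplicit false

namespace Pool.Agent.W134.GR

open Finset
open Pool.Agent.H469R2.NK (e norm_e)
open Pool.Agent.W78.GR

variable {t c : ℤ} {η : (Qd t c)ˣ}

/-! ### rows -/

lemma s1_mk (n y : ℤ) : s1 (⟨n, y⟩ : Qd t c) =
    n + t * y / 2 + y * Real.sqrt (t ^ 2 - 4 * c) / 2 := rfl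

lemma s2_mk (n y : ℤ) : s2 (⟨n, y⟩ : Qd t c) =
    n + t * y / 2 - y * Real.sqrt (t ^ 2 - 4 * c) / 2 := rfl

/-- the point of the row -/
def rw' (t c : ℤ) (d : ℕ) (i y n : ℤ) : Qd t c := ⟨d * n + i, y⟩

lemma s1_rw (d : ℕ) (i y n m : ℤ) :
    s1 (rw' t c d i y m) = s1 (rw' t c d i y n) + d * ((m : ℝ) - n) := by
  unfold rw'
  rw [s1_mk, s1_mk]
  push_cast
  ring

lemma s2_rw (d : ℕ) (i y n m : ℤ) :
    s2 (rw' t c d i y m) = s2 (rw' t c d i y n) + d * ((m : ℝ) - n) := by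
  unfold rw'
  rw [s2_mk, s2_mk]
  push_cast
  ring

/-- convexity of the conditions -/
lemma PW_convex (Y : ℝ) (d : ℕ) (i y : ℤ) {a b n : ℤ} (hE : 1 ≤ s1 (η : Qd t c))
    (ha : PW η Y (rw' t c d i y a)) (hb : PW η Y (rw' t c d i y b)) (h1 : a ≤ n) (h2 : n ≤ b) :
    PW η Y (rw' t c d i y n) := by
  obtain ⟨a1, a2, a3, a4, a5⟩ := ha
  obtain ⟨b1, b2, b3, b4, b5⟩ := hb
  have e1 := s1_rw (t := t) (c := c) d i y a n
  have e2 := s2_rw (t := t) (c := c) d i y a n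
  have f1 := s1_rw (t := t) (c := c) d i y n b
  have f2 := s2_rw (t := t) (c := c) d i y n b
  have h1' : (a : ℝ) ≤ n := by exact_mod_cast h1
  have h2' : (n : ℝ) ≤ b := by exact_mod_cast h2
  have g1 : 0 ≤ (d : ℝ) * ((n : ℝ) - a) := mul_nonneg (Nat.cast_nonneg _) (by linarith)
  have g2 : 0 ≤ (d : ℝ) * ((b : ℝ) - n) := mul_nonneg (Nat.cast_nonneg _) (by linarith)
  set E := s1 (η : Qd t c) with hEdef
  set p := s1 (rw' t c d i y a) with hp
  set q := s2 (rw' t c d i y a) with hq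
  set p' := s1 (rw' t c d i y n) with hp'
  set q' := s2 (rw' t c d i y n) with hq'
  set p'' := s1 (rw' t c d i y b) with hp''
  set q'' := s2 (rw' t c d i y b) with hq''
  have hE2 : 1 ≤ E ^ 2 := one_le_pow₀ hE
  have hE4 : 1 ≤ E ^ 4 := one_le_pow₀ hE
  have hq0 : 0 < q := lt_trans (by positivity) a2
  set u := (d : ℝ) * ((n : ℝ) - a) with hu
  set v := (d : ℝ) * ((b : ℝ) - n) with hv
  show 0 < p' ∧ E ^ 2 * p' < q' ∧ q' ≤ E ^ 4 * p' ∧ Y / 4 < p' * q' ∧ p' * q' ≤ Y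
  refine ⟨by linarith, ?_, ?_, ?_, ?_⟩
  · have : E ^ 2 * v ≥ v := by nlinarith
    rw [f1, f2] at b2
    linarith
  · have : E ^ 4 * u ≥ u := by nlinarith
    rw [e1, e2]
    linarith
  · refine lt_of_lt_of_le a4 ?_
    rw [e1, e2]
    gcongr <;> linarith
  · refine le_trans ?_ b5
    rw [f1, f2]
    have : 0 < p' := by linarith
    have : 0 < q' := by linarith
    gcongr <;> linarith

lemma lat_rw {d : ℕ} (r i y : ℤ) (u : Qd t c) {a : ℤ} (n : ℤ)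
    (h : lat d r (u * rw' t c d i y a)) : lat d r (u * rw' t c d i y n) := by
  unfold lat rw' at *
  simp only [QuadraticAlgebra.re_mul, QuadraticAlgebra.im_mul] at *
  obtain ⟨m, hm⟩ := h
  refine ⟨m + (n - a) * (u.re + r * u.im), ?_⟩
  linear_combination hm

/-- the phase -/
lemma ps_eq_e (k : ℤ) {w : Qd t c} (h1 : 0 < s1 w) (h2 : 0 < s2 w) (hR : rg η ≠ 0) :
    ps η k w = e ((k : ℝ) / (2 * rg η) * (Real.log (s1 w) - Real.log (s2 w))) := by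
  unfold ps ang e
  rw [Real.log_div h1.ne' h2.ne']
  congr 3
  field_simp

section

variable (U : Un t c η)
include U

lemma rg_gt : 1 < rg η := by
  have h6 := six_lt U
  unfold rg
  rw [Real.lt_log_iff_exp_lt (by linarith)]
  have := Real.exp_one_lt_d9
  linarith

/-- the sum over one row -/
lemma row_sum (Y : ℝ) (hY : 1 ≤ Y) (k : ℤ) {d : ℕ} (hd : 1 ≤ d) (N : Finset ℤ) (i y : ℤ)
    (hN : ∀ n ∈ N, PW η Y (rw' t c d i y n))
    (hc : ∀ a ∈ N, ∀ b ∈ N, ∀ n, a ≤ n → n ≤ b → n ∈ N) (M : ℕ) {κ C : ℝ} (hC : 0 < C)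
    (hκ : 0 < κ) (hκ1 : κ ≤ 1)
    (hline : ∀ (J L : ℕ) (A B ξ : ℝ), 1 ≤ J → L ≤ J →
      (J : ℝ) / (4 * s1 (η : Qd t c) ^ 2) ≤ A → A + J / 2 ≤ B → B ≤ s1 (η : Qd t c) ^ 2 * J →
      1 ≤ |ξ| → |ξ| ≤ (J : ℝ) ^ M →
      ‖∑ n ∈ range L, e (ξ * (Real.log (A + d * n) - Real.log (B + d * n)))‖ ≤
        C * ((J : ℝ) ^ (1 - κ) + J / |ξ|))
    (hk1 : 2 * rg η ≤ |(k : ℝ)|) (hk2 : |(k : ℝ)| ≤ Real.sqrt Y ^ M) :
    ‖∑ n ∈ N, ps η k (rw' t c d i y n)‖ ≤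
      C * ((2 + 4 * rg η) * (Real.sqrt Y ^ (1 - κ) + Real.sqrt Y / |(k : ℝ)|)) := by
  have hR := rg_gt U
  have h6 := six_lt U
  have hr1 : 1 ≤ Real.sqrt Y := Real.one_le_sqrt.2 hY
  have hk0 : 0 < |(k : ℝ)| := by linarith
  rcases N.eq_empty_or_nonempty with rfl | hne
  · rw [sum_empty, norm_zero]
    positivity
  obtain ⟨n₀, hn₀, n₁, hn₁, L, hL, hsum⟩ := convex_int N hne hc
  rw [hsum]
  set r := Real.sqrt Y with hr
  set J : ℕ := ⌊r⌋₊ + 1 with hJ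
  have hJ1 : r < J := by rw [hJ]; push_cast; exact Nat.lt_floor_add_one r
  have hJ2 : (J : ℝ) ≤ 2 * r := by
    rw [hJ]; push_cast
    have := Nat.floor_le (by linarith : (0 : ℝ) ≤ r)
    linarith
  obtain ⟨z1, z2, z3, z4⟩ := PW_sizes U hY (hN n₀ hn₀)
  obtain ⟨w1, w2, w3, w4⟩ := PW_sizes U hY (hN n₁ hn₁)
  have hA0 := (hN n₀ hn₀).1
  have hd1 : (1 : ℝ) ≤ d := by exact_mod_cast hd
  have hLJ : L ≤ J := by
    have e1 := s1_rw (t := t) (c := c) d i y n₀ n₁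
    have h1 : (d : ℝ) * ((n₁ : ℝ) - n₀) < r := by linarith
    have h2 : (n₁ : ℝ) - n₀ < r := by
      by_contra hcon
      push Not at hcon
      nlinarith
    have h3 : (L : ℝ) = (n₁ : ℝ) - n₀ + 1 := by exact_mod_cast hL
    have h4 : (L : ℝ) < J + 1 := by linarith
    have h5 : L < J + 1 := by exact_mod_cast h4
    omega
  have hE2 : 0 < 4 * s1 (η : Qd t c) ^ 2 := by positivity
  have hξ : |(k : ℝ) / (2 * rg η)| = |(k : ℝ)| / (2 * rg η) := by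
    rw [abs_div, abs_of_pos (by linarith : 0 < 2 * rg η)]
  have key := hline J L (s1 (rw' t c d i y n₀)) (s2 (rw' t c d i y n₀)) ((k : ℝ) / (2 * rg η))
    (by omega) hLJ
    (by
      refine le_trans ?_ z1
      rw [div_le_div_iff₀ hE2 (by positivity)]
      have : (J : ℝ) * (2 * s1 (η : Qd t c) ^ 2) ≤ 2 * r * (2 * s1 (η : Qd t c) ^ 2) := by gcongr
      linarith)
    (by linarith)
    (z3.trans (by gcongr))
    (by rw [hξ, le_div_iff₀ (by linarith)]; linarith)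
    (by
      rw [hξ]
      refine le_trans (div_le_self hk0.le (by linarith)) (hk2.trans ?_)
      gcongr)
  have heq : ∑ j ∈ range L, ps η k (rw' t c d i y (n₀ + j)) =
      ∑ n ∈ range L, e ((k : ℝ) / (2 * rg η) * (Real.log (s1 (rw' t c d i y n₀) + d * n) -
        Real.log (s2 (rw' t c d i y n₀) + d * n))) := by
    refine sum_congr rfl fun j _ => ?_
    have e1 := s1_rw (t := t) (c := c) d i y n₀ (n₀ + j)
    have e2 := s2_rw (t := t) (c := c) d i y n₀ (n₀ + j)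
    have e3 : (((n₀ + (j : ℤ) : ℤ) : ℝ) - n₀) = j := by push_cast; ring
    rw [e3] at e1 e2
    have hj : 0 ≤ (d : ℝ) * j := by positivity
    rw [ps_eq_e k (by rw [e1]; linarith) (by rw [e2]; linarith) (by linarith), e1, e2]
  rw [heq]
  refine key.trans ?_
  apply mul_le_mul_of_nonneg_left _ hC.le
  rw [hξ]
  have h1 : (J : ℝ) ^ (1 - κ) ≤ 2 * r ^ (1 - κ) := by
    calc (J : ℝ) ^ (1 - κ) ≤ (2 * r) ^ (1 - κ) := by
          apply Real.rpow_le_rpow (by positivity) hJ2 (by linarith)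
      _ = 2 ^ (1 - κ) * r ^ (1 - κ) := Real.mul_rpow (by norm_num) (by linarith)
      _ ≤ 2 * r ^ (1 - κ) := by
          apply mul_le_mul_of_nonneg_right _ (by positivity)
          calc (2 : ℝ) ^ (1 - κ) ≤ 2 ^ (1 : ℝ) := by
                apply Real.rpow_le_rpow_of_exponent_le (by norm_num) (by linarith)
            _ = 2 := Real.rpow_one 2
  have h2 : (J : ℝ) / (|(k : ℝ)| / (2 * rg η)) ≤ 4 * rg η * (r / |(k : ℝ)|) := by
    rw [div_div_eq_mul_div]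
    calc (J : ℝ) * (2 * rg η) / |(k : ℝ)| ≤ (2 * r) * (2 * rg η) / |(k : ℝ)| := by gcongr
      _ = 4 * rg η * (r / |(k : ℝ)|) := by ring
  have h3 : 0 ≤ r ^ (1 - κ) := by positivity
  have h4 : 0 ≤ r / |(k : ℝ)| := by positivity
  nlinarith

/-! ### the annulus -/

/-- the index of the row -/
noncomputable def ri (η : (Qd t c)ˣ) (d : ℕ) (z : Qd t c) : ℤ × ℤ :=
  ((v2 η * z).im, (v2 η * z).re % (d : ℤ))

/-- the elements of the annulus -/
noncomputable def an (η : (Qd t c)ˣ) (d : ℕ) (r : ℤ) (Y : ℝ) : Finset (Qd t c) :=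
  ((ball η Y).filter (lat d r)).filter (fun z => ¬ (nm z : ℝ) ≤ Y / 4)

lemma mem_an {d : ℕ} {r : ℤ} {Y : ℝ} {z : Qd t c} :
    z ∈ an η d r Y ↔ PW η Y (v2 η * z) ∧ lat d r z := by
  unfold an
  rw [mem_filter, mem_filter, U.mem_ball, ← fd_u2_iff U, u2_v2_mul U, not_le]
  tauto

/-- the fiber of a row -/
lemma fiber_sum (Y : ℝ) (k : ℤ) {d : ℕ} (hd : 1 ≤ d) (r : ℤ) (p : ℤ × ℤ) :
    ∃ N : Finset ℤ, (∀ n ∈ N, PW η Y (rw' t c d p.2 p.1 n)) ∧
      (∀ a ∈ N, ∀ b ∈ N, ∀ n, a ≤ n → n ≤ b → n ∈ N) ∧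
      ∑ z ∈ (an η d r Y).filter (fun z => ri η d z = p), ps η k z =
        ∑ n ∈ N, ps η k (rw' t c d p.2 p.1 n) := by
  classical
  have hd0 : (0 : ℤ) < d := by exact_mod_cast hd
  have hd00 : (d : ℤ) ≠ 0 := hd0.ne'
  have h6 := six_lt U
  -- the parametrization
  have hpar : ∀ z : Qd t c, ri η d z = p →
      v2 η * z = rw' t c d p.2 p.1 ((v2 η * z).re / (d : ℤ)) := by
    rintro z rfl
    unfold rw' ri
    apply QuadraticAlgebra.ext
    · exact (Int.mul_ediv_add_emod _ _).symm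
    · rfl
  have hmemN : ∀ n : ℤ, n ∈ ((an η d r Y).filter (fun z => ri η d z = p)).image
      (fun z => (v2 η * z).re / (d : ℤ)) ↔
      (PW η Y (rw' t c d p.2 p.1 n) ∧ lat d r (u2 η * rw' t c d p.2 p.1 n)) ∧
        0 ≤ p.2 ∧ p.2 < d := by
    intro n
    rw [mem_image]
    constructor
    · rintro ⟨z, hz, rfl⟩
      rw [mem_filter, mem_an U] at hz
      obtain ⟨⟨h1, h2⟩, h3⟩ := hz
      rw [← hpar z h3, u2_v2_mul U]
      refine ⟨⟨h1, h2⟩, ?_, ?_⟩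
      · rw [← h3]; exact Int.emod_nonneg _ hd00
      · rw [← h3]; exact Int.emod_lt_of_pos _ hd0
    · rintro ⟨⟨h1, h2⟩, h3, h4⟩
      refine ⟨u2 η * rw' t c d p.2 p.1 n, ?_, ?_⟩
      · rw [mem_filter, mem_an U, v2_u2_mul U]
        refine ⟨⟨h1, h2⟩, ?_⟩
        unfold ri
        rw [v2_u2_mul U]
        unfold rw'
        apply Prod.ext
        · rfl
        · show (d * n + p.2) % (d : ℤ) = p.2
          rw [Int.add_emod, Int.mul_emod_right, zero_add, Int.emod_emod_of_dvd _ dvd_rfl,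
            Int.emod_eq_of_lt h3 h4]
      · show (v2 η * (u2 η * rw' t c d p.2 p.1 n)).re / (d : ℤ) = n
        rw [v2_u2_mul U]
        show (d * n + p.2) / (d : ℤ) = n
        rw [Int.add_comm, Int.add_mul_ediv_left _ _ hd00, Int.ediv_eq_zero_of_lt h3 h4, zero_add]
  refine ⟨_, fun n hn => ((hmemN n).1 hn).1.1, ?_, ?_⟩
  · intro a ha b hb n h1 h2
    have ha' := (hmemN a).1 ha
    have hb' := (hmemN b).1 hb
    exact (hmemN n).2 ⟨⟨PW_convex Y d p.2 p.1 (by linarith) ha'.1.1 hb'.1.1 h1 h2,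
      lat_rw r p.2 p.1 (u2 η) n ha'.1.2⟩, ha'.2⟩
  · rw [sum_image]
    · refine sum_congr rfl fun z hz => ?_
      rw [mem_filter, mem_an U] at hz
      obtain ⟨⟨h1, h2⟩, h3⟩ := hz
      rw [← hpar z h3]
      conv_lhs => rw [← u2_v2_mul U z]
      apply ps_u2 U
      exact ⟨h1.1, lt_trans (by have := h1.1; positivity) h1.2.1⟩
    · intro z hz z' hz' h
      have h1 := (mem_filter.1 hz).2
      have h2 := (mem_filter.1 hz').2
      have h3 := hpar z h1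
      have h4 := hpar z' h2
      have h5 : (v2 η * z).re / (d : ℤ) = (v2 η * z').re / (d : ℤ) := h
      rw [h5, ← h4] at h3
      rw [← u2_v2_mul U z, h3, u2_v2_mul U]

/-- the indices of the rows -/
lemma ri_mem {d : ℕ} (hd : 1 ≤ d) {Y : ℝ} (hY : 1 ≤ Y) {z : Qd t c} (h : PW η Y (v2 η * z)) :
    ri η d z ∈ (Icc (-(⌈s1 (η : Qd t c) ^ 2 * Real.sqrt Y⌉₊ : ℤ))
      ⌈s1 (η : Qd t c) ^ 2 * Real.sqrt Y⌉₊) ×ˢ (Ico (0 : ℤ) d) := by
  have hd0 : (0 : ℤ) < d := by exact_mod_cast hd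
  obtain ⟨w1, w2, w3, w4⟩ := PW_sizes U hY h
  have h1 := h.1
  have h5 := s1_sub_s2 (v2 η * z)
  have hq : 2 ≤ Real.sqrt ((t : ℝ) ^ 2 - 4 * c) := by
    apply Real.le_sqrt_of_sq_le
    have := U.five_le
    linarith
  have hr0 : 0 ≤ Real.sqrt Y := Real.sqrt_nonneg Y
  have h6 : |((v2 η * z).im : ℝ)| ≤ s1 (η : Qd t c) ^ 2 * Real.sqrt Y := by
    have h7 : |((v2 η * z).im : ℝ)| * Real.sqrt ((t : ℝ) ^ 2 - 4 * c) =
        s2 (v2 η * z) - s1 (v2 η * z) := by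
      rw [← abs_of_nonneg (by linarith : 0 ≤ Real.sqrt ((t : ℝ) ^ 2 - 4 * c)), ← abs_mul, ← h5,
        abs_sub_comm, abs_of_nonneg (by linarith)]
    have h8 : |((v2 η * z).im : ℝ)| * 2 ≤
        |((v2 η * z).im : ℝ)| * Real.sqrt ((t : ℝ) ^ 2 - 4 * c) := by gcongr
    have h9 := abs_nonneg ((v2 η * z).im : ℝ)
    linarith
  have h7 := abs_le.1 (h6.trans (Nat.le_ceil _))
  rw [mem_product, mem_Icc, mem_Ico]
  refine ⟨⟨?_, ?_⟩, Int.emod_nonneg _ hd0.ne', Int.emod_lt_of_pos _ hd0⟩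
  · exact_mod_cast h7.1
  · exact_mod_cast h7.2

/-- the annulus `Y/4 < nm z ≤ Y`, `k` large -/
lemma annulus_large {d : ℕ} (hd : 1 ≤ d) (r₀ : ℤ) (M : ℕ) : ∃ κ : ℝ, 0 < κ ∧ κ ≤ 1 ∧
    ∃ C : ℝ, 0 < C ∧ ∀ (Y : ℝ) (k : ℤ), 1 ≤ Y → 2 * rg η ≤ |(k : ℝ)| → |(k : ℝ)| ≤ Y ^ M →
      ‖∑ z ∈ an η d r₀ Y, ps η k z‖ ≤ C * (Y ^ (1 - κ / 2) + Y / |(k : ℝ)|) := by
  have h6 := six_lt U
  have hR := rg_gt U
  have hd1 : (1 : ℝ) ≤ d := by exact_mod_cast hd
  obtain ⟨κ, hκ, hκ1, C, hC, hline⟩ := line (2 * M) hd1 (by linarith : 1 ≤ s1 (η : Qd t c))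
  set E := s1 (η : Qd t c) with hE
  refine ⟨κ, hκ, hκ1, (2 * E ^ 2 + 3) * d * (C * (2 + 4 * rg η)), by positivity, ?_⟩
  intro Y k hY hk1 hk2
  have hY0 : 0 < Y := by linarith
  set r := Real.sqrt Y with hr
  have hr1 : 1 ≤ r := Real.one_le_sqrt.2 hY
  have hr2 : r ^ 2 = Y := Real.sq_sqrt hY0.le
  have hk0 : 0 < |(k : ℝ)| := by linarith
  set K : ℕ := ⌈E ^ 2 * r⌉₊ with hK
  have hK1 : (K : ℝ) ≤ E ^ 2 * r + 1 := (Nat.ceil_lt_add_one (by positivity)).le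
  rw [← sum_fiberwise_of_maps_to (g := ri η d)
    (t := (Icc (-(K : ℤ)) K) ×ˢ (Ico (0 : ℤ) d))
    (fun z hz => ri_mem U hd hY ((mem_an U).1 hz).1)]
  refine (norm_sum_le _ _).trans ?_
  have hrow : ∀ p ∈ (Icc (-(K : ℤ)) K) ×ˢ (Ico (0 : ℤ) d),
      ‖∑ z ∈ (an η d r₀ Y).filter (fun z => ri η d z = p), ps η k z‖ ≤
        C * ((2 + 4 * rg η) * (r ^ (1 - κ) + r / |(k : ℝ)|)) := by
    intro p _
    obtain ⟨N, hN1, hN2, hN3⟩ := fiber_sum U Y k hd r₀ p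
    rw [hN3]
    exact row_sum U Y hY k hd N p.2 p.1 hN1 hN2 (2 * M) hC hκ hκ1 hline hk1
      (by rw [pow_mul, ← hr, hr2]; exact hk2)
  refine (sum_le_sum hrow).trans ?_
  rw [sum_const, nsmul_eq_mul]
  have hcard : (((Icc (-(K : ℤ)) K) ×ˢ (Ico (0 : ℤ) d)).card : ℝ) ≤ (2 * E ^ 2 + 3) * r * d := by
    rw [card_product, Int.card_Icc, Int.card_Ico]
    have e1 : ((K : ℤ) + 1 - -(K : ℤ)).toNat = 2 * K + 1 := by omega
    have e2 : ((d : ℤ) - 0).toNat = d := by omega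
    rw [e1, e2]
    push_cast
    have : 2 * (K : ℝ) + 1 ≤ (2 * E ^ 2 + 3) * r := by nlinarith
    gcongr
  have h3 : 0 ≤ r ^ (1 - κ) := by positivity
  have h4 : 0 ≤ r / |(k : ℝ)| := by positivity
  have h2 : r * r ^ (1 - κ) = Y ^ (1 - κ / 2) := by
    rw [← Real.rpow_one_add' (by linarith) (by linarith), hr, Real.sqrt_eq_rpow,
      ← Real.rpow_mul hY0.le]
    congr 1
    ring
  calc (((Icc (-(K : ℤ)) K) ×ˢ (Ico (0 : ℤ) d)).card : ℝ) *
        (C * ((2 + 4 * rg η) * (r ^ (1 - κ) + r / |(k : ℝ)|)))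
      ≤ ((2 * E ^ 2 + 3) * r * d) * (C * ((2 + 4 * rg η) * (r ^ (1 - κ) + r / |(k : ℝ)|))) := by
        apply mul_le_mul_of_nonneg_right hcard (by positivity)
    _ = (2 * E ^ 2 + 3) * d * (C * (2 + 4 * rg η)) * (r * r ^ (1 - κ) + r ^ 2 / |(k : ℝ)|) := by
        ring
    _ = _ := by rw [h2, hr2]

/-! ### the trivial bound and the assembly -/

/-- the elements of the lattice in the ball -/
noncomputable def lb (η : (Qd t c)ˣ) (d : ℕ) (r : ℤ) (Y : ℝ) : Finset (Qd t c) :=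
  (ball η Y).filter (lat d r)

lemma lb_eq_empty {d : ℕ} {r : ℤ} {Y : ℝ} (hY : Y < 1) : lb η d r Y = ∅ := by
  unfold lb
  rw [filter_eq_empty_iff]
  intro z hz
  rw [U.mem_ball] at hz
  have := one_le_nmR U.disc hz.1.1
  linarith [hz.2]

lemma card_ball_le : ∃ G : ℝ, 0 < G ∧ ∀ Y : ℝ, 1 ≤ Y → ((ball η Y).card : ℝ) ≤ G * Y := by
  classical
  have h6 := six_lt U
  have ht := abs_nonneg (t : ℝ)
  set E := s1 (η : Qd t c) with hE
  refine ⟨(2 * ((|(t : ℝ)| + 1) * E) + 3) * (E + 3), by positivity, ?_⟩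
  intro Y hY
  set r := Real.sqrt Y with hr
  have hr1 : 1 ≤ r := Real.one_le_sqrt.2 hY
  have hr2 : r ^ 2 = Y := Real.sq_sqrt (by linarith)
  set A : ℕ := ⌈(|(t : ℝ)| + 1) * E * r⌉₊ with hA
  set B : ℕ := ⌈E * r⌉₊ with hB
  have hA1 : (A : ℝ) ≤ (|(t : ℝ)| + 1) * E * r + 1 := (Nat.ceil_lt_add_one (by positivity)).le
  have hB1 : (B : ℝ) ≤ E * r + 1 := (Nat.ceil_lt_add_one (by positivity)).le
  have hsub : ball η Y ⊆ ((Icc (-(A : ℤ)) A) ×ˢ (Ico (0 : ℤ) (B + 1))).image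
      (fun p => (⟨p.1, p.2⟩ : Qd t c)) := by
    intro z hz
    rw [U.mem_ball] at hz
    obtain ⟨h1, h2, h3⟩ := U.coord_le hz.1 hz.2
    rw [mem_image]
    refine ⟨(z.re, z.im), ?_, rfl⟩
    rw [mem_product, mem_Icc, mem_Ico]
    have h4 : |(z.re : ℝ)| ≤ (A : ℝ) := h3.trans (Nat.le_ceil _)
    have h4' : |z.re| ≤ (A : ℤ) := by exact_mod_cast h4
    have h4'' := abs_le.1 h4'
    refine ⟨⟨h4''.1, h4''.2⟩, h1, ?_⟩
    · have h5 : (z.im : ℝ) ≤ B := by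
        have h6 : E * r / 2 ≤ E * r := by
          have : 0 ≤ E * r := by positivity
          linarith
        exact (h2.trans h6).trans (Nat.le_ceil _)
      have h7 : z.im ≤ B := by exact_mod_cast h5
      show z.im < (B : ℤ) + 1
      omega
  have hcard : (ball η Y).card ≤ (2 * A + 1) * (B + 1) := by
    refine (card_le_card hsub).trans (card_image_le.trans ?_)
    rw [card_product, Int.card_Icc, Int.card_Ico]
    apply le_of_eq
    congr 1 <;> omega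
  have hcard' : ((ball η Y).card : ℝ) ≤ (2 * A + 1) * (B + 1) := by exact_mod_cast hcard
  refine hcard'.trans ?_
  have h1 : 2 * (A : ℝ) + 1 ≤ (2 * ((|(t : ℝ)| + 1) * E) + 3) * r := by nlinarith
  have h2 : (B : ℝ) + 1 ≤ (E + 3) * r := by nlinarith
  calc (2 * (A : ℝ) + 1) * (B + 1) ≤ ((2 * ((|(t : ℝ)| + 1) * E) + 3) * r) * ((E + 3) * r) := by
        gcongr
    _ = (2 * ((|(t : ℝ)| + 1) * E) + 3) * (E + 3) * r ^ 2 := by ring
    _ = _ := by rw [hr2]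

lemma sum_lb_le {G : ℝ} (hG : 0 < G) (h : ∀ Y : ℝ, 1 ≤ Y → ((ball η Y).card : ℝ) ≤ G * Y)
    {d : ℕ} {r : ℤ} {Y : ℝ} (hY : 0 ≤ Y) (k : ℤ) : ‖∑ z ∈ lb η d r Y, ps η k z‖ ≤ G * Y := by
  by_cases h1 : 1 ≤ Y
  · refine (norm_sum_le _ _).trans ?_
    simp only [norm_ps, sum_const, nsmul_eq_mul, mul_one]
    refine le_trans ?_ (h Y h1)
    exact_mod_cast card_le_card (filter_subset _ _)
  · push Not at h1
    rw [lb_eq_empty U h1, sum_empty, norm_zero]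
    positivity

lemma sum_an_eq {d : ℕ} {r : ℤ} {Y : ℝ} (hY : 0 ≤ Y) (k : ℤ) :
    ∑ z ∈ an η d r Y, ps η k z = ∑ z ∈ lb η d r Y, ps η k z - ∑ z ∈ lb η d r (Y / 4), ps η k z := by
  rw [eq_sub_iff_add_eq, add_comm]
  have h1 : lb η d r (Y / 4) = (lb η d r Y).filter (fun z => (nm z : ℝ) ≤ Y / 4) := by
    ext z
    unfold lb
    rw [mem_filter, mem_filter, mem_filter, U.mem_ball, U.mem_ball]
    constructor
    · rintro ⟨⟨h1, h2⟩, h3⟩
      exact ⟨⟨⟨h1, by linarith⟩, h3⟩, h2⟩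
    · rintro ⟨⟨⟨h1, h2⟩, h3⟩, h4⟩
      exact ⟨⟨h1, h4⟩, h3⟩
  rw [h1]
  exact sum_filter_add_sum_filter_not _ _ _

/-- the annulus `Y/4 < nm z ≤ Y` -/
lemma annulus {d : ℕ} (hd : 1 ≤ d) (r₀ : ℤ) (M : ℕ) : ∃ κ : ℝ, 0 < κ ∧ κ ≤ 1 / 2 ∧
    ∃ C : ℝ, 0 < C ∧ ∀ (Y : ℝ) (k : ℤ), 1 ≤ Y → k ≠ 0 → |(k : ℝ)| ≤ Y ^ M →
      ‖∑ z ∈ lb η d r₀ Y, ps η k z - ∑ z ∈ lb η d r₀ (Y / 4), ps η k z‖ ≤
        C * (Y ^ (1 - κ) + Y / |(k : ℝ)|) := by
  obtain ⟨κ, hκ, hκ1, C, hC, h⟩ := annulus_large U hd r₀ M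
  obtain ⟨G, hG, hGb⟩ := card_ball_le U
  have hR := rg_gt U
  refine ⟨κ / 2, by positivity, by linarith, C + 2 * G * (2 * rg η), by positivity, ?_⟩
  intro Y k hY hk hkM
  have hk0 : 0 < |(k : ℝ)| := abs_pos.2 (by exact_mod_cast hk)
  have hY0 : 0 < Y := by linarith
  have hp1 : 0 ≤ Y ^ (1 - κ / 2) := by positivity
  have hp2 : 0 ≤ Y / |(k : ℝ)| := by positivity
  by_cases hc1 : 2 * rg η ≤ |(k : ℝ)|
  · rw [← sum_an_eq U hY0.le]
    refine (h Y k hY hc1 hkM).trans ?_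
    apply mul_le_mul_of_nonneg_right _ (by positivity)
    have : 0 < 2 * G * (2 * rg η) := by positivity
    linarith
  · push Not at hc1
    have htriv : ‖∑ z ∈ lb η d r₀ Y, ps η k z - ∑ z ∈ lb η d r₀ (Y / 4), ps η k z‖ ≤
        2 * G * Y := by
      refine (norm_sub_le _ _).trans ?_
      have h1 := sum_lb_le U hG hGb (d := d) (r := r₀) hY0.le k
      have h2 := sum_lb_le U hG hGb (d := d) (r := r₀) (by positivity : 0 ≤ Y / 4) k
      have h3 : 0 ≤ G * Y := by positivity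
      linarith
    refine htriv.trans ?_
    have h4 : Y ≤ 2 * rg η * (Y / |(k : ℝ)|) := by
      rw [← mul_div_assoc, le_div_iff₀ hk0]
      nlinarith
    calc 2 * G * Y ≤ 2 * G * (2 * rg η * (Y / |(k : ℝ)|)) := by gcongr
      _ ≤ 2 * G * (2 * rg η * (Y ^ (1 - κ / 2) + Y / |(k : ℝ)|)) := by
          gcongr
          linarith
      _ = (2 * G * (2 * rg η)) * (Y ^ (1 - κ / 2) + Y / |(k : ℝ)|) := by ring
      _ ≤ _ := by
          apply mul_le_mul_of_nonneg_right _ (by positivity)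
          linarith

/-- **Angular sums, van der Corput part.** -/
theorem ang1 : S_ANG1 t c η := by
  intro d r₀ M hd
  obtain ⟨κ, hκ, hκ1, C, hC, h⟩ := annulus U hd r₀ (2 * M)
  obtain ⟨G, hG, hGb⟩ := card_ball_le U
  refine ⟨κ, hκ, 2 * C + G, by positivity, ?_⟩
  intro X k hX hk hkM
  show ‖∑ z ∈ lb η d r₀ X, ps η k z‖ ≤ _
  have hk0 : 0 < |(k : ℝ)| := abs_pos.2 (by exact_mod_cast hk)
  have hX0 : 0 < X := by linarith
  have key : ∀ (n : ℕ) (Y : ℝ), 1 ≤ Y → Y ≤ X → Y ≤ 4 ^ n →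
      ‖∑ z ∈ lb η d r₀ Y, ps η k z‖ ≤
        G * Real.sqrt X + 2 * C * (Y ^ (1 - κ) + Y / |(k : ℝ)|) := by
    intro n
    induction n with
    | zero =>
      intro Y hY _ h1
      have hY0 : 0 < Y := by linarith
      have h2 := sum_lb_le U hG hGb (d := d) (r := r₀) hY0.le k
      have h3 : 1 ≤ Real.sqrt X := by rw [Real.one_le_sqrt]; exact hX
      have h4 : 0 ≤ 2 * C * (Y ^ (1 - κ) + Y / |(k : ℝ)|) := by positivity
      have h5 : Y ≤ 1 := by simpa using h1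
      have h6 : G * Y ≤ G * Real.sqrt X := by
        gcongr
        linarith
      linarith
    | succ n ih =>
      intro Y hY hYX h1
      have hY0 : 0 < Y := by linarith
      have h4 : 0 ≤ 2 * C * (Y ^ (1 - κ) + Y / |(k : ℝ)|) := by positivity
      by_cases hc : Y ≤ Real.sqrt X
      · have h2 := sum_lb_le U hG hGb (d := d) (r := r₀) hY0.le k
        have h6 : G * Y ≤ G * Real.sqrt X := by gcongr
        linarith
      · push Not at hc
        have hXY : X ≤ Y ^ 2 := by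
          have h5 : Real.sqrt X ^ 2 ≤ Y ^ 2 := by gcongr
          rwa [Real.sq_sqrt hX0.le] at h5
        have hkY : |(k : ℝ)| ≤ Y ^ (2 * M) := by
          rw [pow_mul]
          exact hkM.trans (by gcongr)
        have h6 := h Y k hY hk hkY
        have h7 : ‖∑ z ∈ lb η d r₀ (Y / 4), ps η k z‖ ≤ G * Real.sqrt X +
            2 * C * ((Y / 4) ^ (1 - κ) + (Y / 4) / |(k : ℝ)|) := by
          by_cases hc4 : 1 ≤ Y / 4
          · exact ih (Y / 4) hc4 (by linarith) (by rw [pow_succ] at h1; linarith)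
          · push Not at hc4
            rw [lb_eq_empty U hc4, sum_empty, norm_zero]
            positivity
        have h8 : (Y / 4) ^ (1 - κ) ≤ Y ^ (1 - κ) / 2 := by
          rw [Real.div_rpow hY0.le (by norm_num)]
          apply div_le_div_of_nonneg_left (by positivity) (by norm_num)
          calc (2 : ℝ) = 4 ^ (1 / 2 : ℝ) := by
                rw [← Real.sqrt_eq_rpow, show (4 : ℝ) = 2 ^ 2 by norm_num,
                  Real.sqrt_sq (by norm_num)]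
            _ ≤ 4 ^ (1 - κ) := by
                apply Real.rpow_le_rpow_of_exponent_le (by norm_num) (by linarith)
        have h9 : ‖∑ z ∈ lb η d r₀ Y, ps η k z‖ ≤
            ‖∑ z ∈ lb η d r₀ Y, ps η k z - ∑ z ∈ lb η d r₀ (Y / 4), ps η k z‖ +
              ‖∑ z ∈ lb η d r₀ (Y / 4), ps η k z‖ := by
          have := norm_add_le (∑ z ∈ lb η d r₀ Y, ps η k z - ∑ z ∈ lb η d r₀ (Y / 4), ps η k z)
            (∑ z ∈ lb η d r₀ (Y / 4), ps η k z)
          rwa [sub_add_cancel] at this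
        have h10 : (Y / 4) / |(k : ℝ)| ≤ (Y / |(k : ℝ)|) / 2 := by
          rw [div_right_comm]
          have : 0 ≤ Y / |(k : ℝ)| := by positivity
          linarith
        have h11 : 2 * C * ((Y / 4) ^ (1 - κ) + (Y / 4) / |(k : ℝ)|) ≤
            2 * C * (Y ^ (1 - κ) / 2 + (Y / |(k : ℝ)|) / 2) := by gcongr
        have h12 : 2 * C * (Y ^ (1 - κ) / 2 + (Y / |(k : ℝ)|) / 2) +
            C * (Y ^ (1 - κ) + Y / |(k : ℝ)|) = 2 * C * (Y ^ (1 - κ) + Y / |(k : ℝ)|) := by ring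
        linarith
  obtain ⟨n, hn⟩ := pow_unbounded_of_one_lt X (by norm_num : (1 : ℝ) < 4)
  refine (key n X hX le_rfl hn.le).trans ?_
  have h1 : Real.sqrt X ≤ X ^ (1 - κ) := by
    rw [Real.sqrt_eq_rpow]
    apply Real.rpow_le_rpow_of_exponent_le hX (by linarith)
  have h2 : 0 ≤ X / |(k : ℝ)| := by positivity
  calc G * Real.sqrt X + 2 * C * (X ^ (1 - κ) + X / |(k : ℝ)|)
      ≤ G * (X ^ (1 - κ) + X / |(k : ℝ)|) + 2 * C * (X ^ (1 - κ) + X / |(k : ℝ)|) := by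
        gcongr
        linarith
    _ = _ := by ring

end

end Pool.Agent.W134.GR
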