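import Pool.Agent.H221R2.FB_VdcGen

/-!
GR-5, part A: the sum over a block of a row, van der Corput.
-/

set_option autoImplicit false

namespace Pool.Agent.W134.GR

open Finset
open Pool.Agent.H469R2.NK (e norm_e)

/-- the phase `log (A + d (τ - J)) - log (B + d (τ - J))` and its derivatives -/
noncomputable def phR (A B d J : ℝ) : ℕ → ℝ → ℝ
  | 0, τ => Real.log (A + d * (τ - J)) - Real.log (B + d * (τ - J))
  | m + 1, τ => (-1) ^ m * (m.factorial : ℝ) * d ^ (m + 1) *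
      (((A + d * (τ - J))⁻¹) ^ (m + 1) - ((B + d * (τ - J))⁻¹) ^ (m + 1))

lemma hasDerivAt_inv_pow (A d J : ℝ) (m : ℕ) (τ : ℝ) (hA : 0 < A + d * (τ - J)) :
    HasDerivAt (fun τ => ((A + d * (τ - J))⁻¹) ^ (m + 1))
      (-(d * (m + 1) * ((A + d * (τ - J))⁻¹) ^ (m + 2))) τ := by
  have h1 : HasDerivAt (fun τ => A + d * (τ - J)) d τ := by
    have h2 : HasDerivAt (fun τ => d * (τ - J)) (d * 1) τ :=
      ((hasDerivAt_id τ).sub_const J).const_mul d
    rw [mul_one] at h2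
    exact h2.const_add A
  have h2 := (h1.inv hA.ne').pow (m + 1)
  refine h2.congr_deriv ?_
  have h3 : A + d * (τ - J) ≠ 0 := hA.ne'
  simp only [Nat.add_sub_cancel, Pi.inv_apply]
  push_cast
  rw [pow_add _ m 2, div_eq_mul_inv, ← inv_pow]
  ring

lemma hasDerivAt_phR (A B d J : ℝ) (m : ℕ) (τ : ℝ) (hA : 0 < A + d * (τ - J))
    (hB : 0 < B + d * (τ - J)) : HasDerivAt (phR A B d J m) (phR A B d J (m + 1) τ) τ := by
  have h1 : ∀ C : ℝ, HasDerivAt (fun τ => C + d * (τ - J)) d τ := by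
    intro C
    have h2 : HasDerivAt (fun τ => d * (τ - J)) (d * 1) τ :=
      ((hasDerivAt_id τ).sub_const J).const_mul d
    rw [mul_one] at h2
    exact h2.const_add C
  cases m with
  | zero =>
    have h2 := ((h1 A).log hA.ne').sub ((h1 B).log hB.ne')
    refine h2.congr_deriv ?_
    simp only [phR, pow_zero, Nat.factorial_zero, Nat.cast_one, zero_add, pow_one]
    field_simp
  | succ m =>
    have h2 := ((hasDerivAt_inv_pow A d J m τ hA).sub (hasDerivAt_inv_pow B d J m τ hB)).const_mul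
      ((-1) ^ m * (m.factorial : ℝ) * d ^ (m + 1))
    refine h2.congr_deriv ?_
    simp only [phR]
    rw [Nat.factorial_succ]
    push_cast
    ring

/-- the sizes of the derivatives -/
lemma phR_bounds {A B d J E : ℝ} (M m : ℕ) (hJ : 0 < J) (hd : 1 ≤ d) (hE : 1 ≤ E)
    (hA : J / (4 * E ^ 2) ≤ A) (hAB : A + J / 2 ≤ B) (hB : B ≤ E ^ 2 * J) (hm1 : 1 ≤ m)
    (hmM : m ≤ M + 4) (τ : ℝ) (hτ : τ ∈ Set.Icc J (3 * J)) :
    (1 / (E ^ 2 + 2 * d)) ^ (M + 5) / 2 ≤ (-1) ^ (m + 1) * phR A B d J m τ * J ^ m ∧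
      (-1) ^ (m + 1) * phR A B d J m τ * J ^ m ≤
        ((M + 4).factorial : ℝ) * d ^ (M + 4) * (4 * E ^ 2) ^ (M + 4) := by
  obtain ⟨m, rfl⟩ : ∃ m', m = m' + 1 := ⟨m - 1, by omega⟩
  set a := A + d * (τ - J) with ha
  set b := B + d * (τ - J) with hb
  have hE0 : 0 < E := by linarith
  have hd0 : 0 < d := by linarith
  have hτ0 : 0 ≤ τ - J := by linarith [hτ.1]
  have hτ1 : τ - J ≤ 2 * J := by linarith [hτ.2]
  have hA0 : 0 < A := lt_of_lt_of_le (by positivity) hA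
  have h0 : 0 ≤ d * (τ - J) := by positivity
  have haA : A ≤ a := by rw [ha]; linarith
  have ha0 : 0 < a := by linarith
  have hab : b - a = B - A := by rw [ha, hb]; ring
  have hb0 : 0 < b := by linarith
  have hbB : b ≤ (E ^ 2 + 2 * d) * J := by
    have h1 : d * (τ - J) ≤ d * (2 * J) := by gcongr
    rw [hb]
    linarith
  set p := J / a with hp
  set q := J / b with hq
  set q0 := 1 / (E ^ 2 + 2 * d) with hq0
  have hq00 : 0 < q0 := by positivity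
  have hq01 : q0 ≤ 1 := by
    rw [hq0, div_le_one (by positivity)]
    nlinarith
  have hqq : q0 ≤ q := by
    rw [hq0, hq, div_le_div_iff₀ (by positivity) hb0]
    linarith
  have hqpos : 0 < q := by positivity
  have hp4 : p ≤ 4 * E ^ 2 := by
    rw [hp, div_le_iff₀ ha0]
    rw [div_le_iff₀ (by positivity)] at hA
    nlinarith
  have hpq : p * q / 2 ≤ p - q := by
    have h1 : p - q = J * (b - a) / (a * b) := by
      rw [hp, hq]
      field_simp
    have h2 : p * q / 2 = J * (J / 2) / (a * b) := by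
      rw [hp, hq]
      field_simp
    rw [h1, h2]
    apply div_le_div_of_nonneg_right _ (by positivity)
    apply mul_le_mul_of_nonneg_left _ hJ.le
    linarith
  have hppos : 0 < p := by positivity
  have hqlep : q ≤ p := by
    have : 0 ≤ p * q / 2 := by positivity
    linarith
  have hval : (-1 : ℝ) ^ (m + 1 + 1) * phR A B d J (m + 1) τ * J ^ (m + 1) =
      (m.factorial : ℝ) * d ^ (m + 1) * (p ^ (m + 1) - q ^ (m + 1)) := by
    simp only [phR]
    rw [← ha, ← hb]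
    have hs : (-1 : ℝ) ^ (m + 1 + 1) * (-1) ^ m = 1 := by
      rw [← pow_add, show m + 1 + 1 + m = 2 * (m + 1) by ring, pow_mul]
      norm_num
    have e1 : p ^ (m + 1) = (a⁻¹) ^ (m + 1) * J ^ (m + 1) := by
      rw [hp, ← mul_pow]; congr 1; ring
    have e2 : q ^ (m + 1) = (b⁻¹) ^ (m + 1) * J ^ (m + 1) := by
      rw [hq, ← mul_pow]; congr 1; ring
    rw [e1, e2]
    calc (-1 : ℝ) ^ (m + 1 + 1) * ((-1) ^ m * (m.factorial : ℝ) * d ^ (m + 1) *
          ((a⁻¹) ^ (m + 1) - (b⁻¹) ^ (m + 1))) * J ^ (m + 1)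
        = ((-1 : ℝ) ^ (m + 1 + 1) * (-1) ^ m) * ((m.factorial : ℝ) * d ^ (m + 1) *
          ((a⁻¹) ^ (m + 1) * J ^ (m + 1) - (b⁻¹) ^ (m + 1) * J ^ (m + 1))) := by ring
      _ = _ := by rw [hs, one_mul]
  rw [hval]
  have hf1 : (1 : ℝ) ≤ m.factorial := by exact_mod_cast Nat.factorial_pos m
  have hd1 : 1 ≤ d ^ (m + 1) := one_le_pow₀ hd
  constructor
  · have h1 : q0 ^ (m + 2) / 2 ≤ p ^ (m + 1) - q ^ (m + 1) := by
      have h2 : q ^ (m + 1) ≤ q * p ^ m := by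
        rw [pow_succ']
        gcongr
      have h3 : p ^ (m + 1) - q * p ^ m = p ^ m * (p - q) := by ring
      have h4 : q0 ^ m * (q0 * q0 / 2) ≤ p ^ m * (p - q) := by
        have h5 : q0 ≤ p := hqq.trans hqlep
        have h6 : q0 * q0 / 2 ≤ p * q / 2 := by gcongr
        have h7 : q0 * q0 / 2 ≤ p - q := h6.trans hpq
        gcongr
      have h5 : q0 ^ (m + 2) / 2 = q0 ^ m * (q0 * q0 / 2) := by ring
      rw [h5]
      linarith
    have h2 : q0 ^ (M + 5) ≤ q0 ^ (m + 2) := pow_le_pow_of_le_one hq00.le hq01 (by omega)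
    have h3 : 0 ≤ q0 ^ (m + 2) / 2 := by positivity
    calc q0 ^ (M + 5) / 2 ≤ q0 ^ (m + 2) / 2 := by linarith
      _ = 1 * 1 * (q0 ^ (m + 2) / 2) := by ring
      _ ≤ (m.factorial : ℝ) * d ^ (m + 1) * (p ^ (m + 1) - q ^ (m + 1)) := by gcongr
  · have h1 : p ^ (m + 1) - q ^ (m + 1) ≤ (4 * E ^ 2) ^ (M + 4) := by
      have h2 : 0 ≤ q ^ (m + 1) := by positivity
      have h3 : p ^ (m + 1) ≤ (4 * E ^ 2) ^ (m + 1) := by gcongr
      have h4 : (4 * E ^ 2) ^ (m + 1) ≤ (4 * E ^ 2) ^ (M + 4) :=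
        pow_le_pow_right₀ (by nlinarith) hmM
      linarith
    have h2 : (m.factorial : ℝ) ≤ ((M + 4).factorial : ℝ) := by
      exact_mod_cast Nat.factorial_le (by omega)
    have h3 : d ^ (m + 1) ≤ d ^ (M + 4) := pow_le_pow_right₀ hd hmM
    have h4 : 0 ≤ p ^ (m + 1) - q ^ (m + 1) := by
      have : q ^ (m + 1) ≤ p ^ (m + 1) := by gcongr
      linarith
    gcongr

/-- the sum over a block of a row -/
theorem line (M : ℕ) {d E : ℝ} (hd : 1 ≤ d) (hE : 1 ≤ E) :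
    ∃ κ : ℝ, 0 < κ ∧ κ ≤ 1 ∧ ∃ C : ℝ, 0 < C ∧ ∀ (J L : ℕ) (A B ξ : ℝ), 1 ≤ J → L ≤ J →
      (J : ℝ) / (4 * E ^ 2) ≤ A → A + J / 2 ≤ B → B ≤ E ^ 2 * J → 1 ≤ |ξ| → |ξ| ≤ (J : ℝ) ^ M →
      ‖∑ n ∈ range L, e (ξ * (Real.log (A + d * n) - Real.log (B + d * n)))‖ ≤
        C * ((J : ℝ) ^ (1 - κ) + J / |ξ|) := by
  obtain ⟨κ, hκ, hκ1, C, hC, h⟩ := Pool.Agent.H221R2.FB.vdc_gen M
    ((1 / (E ^ 2 + 2 * d)) ^ (M + 5) / 2)
    (((M + 4).factorial : ℝ) * d ^ (M + 4) * (4 * E ^ 2) ^ (M + 4)) (by positivity)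
  refine ⟨κ, hκ, hκ1, C, hC, ?_⟩
  intro J L A B ξ hJ hL hA hAB hB h1 h2
  have hJ0 : (0 : ℝ) < J := by exact_mod_cast hJ
  have hLJ : (L : ℝ) ≤ J := by exact_mod_cast hL
  have hA0 : 0 < A := lt_of_lt_of_le (by positivity) hA
  have hpos : ∀ τ ∈ Set.Icc (J : ℝ) (3 * J), 0 < A + d * (τ - J) ∧ 0 < B + d * (τ - J) := by
    intro τ hτ
    have h0 : 0 ≤ d * (τ - J) := mul_nonneg (by linarith) (by linarith [hτ.1])
    constructor <;> linarith
  have key := h J L J ξ (phR A B d J) hJ le_rfl hL (by linarith)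
    (fun m _ τ hτ => hasDerivAt_phR A B d J m τ (hpos τ hτ).1 (hpos τ hτ).2)
    (fun m hm1 hm2 τ hτ => phR_bounds M m hJ0 hd hE hA hAB hB hm1 hm2 τ hτ) h1 h2
  refine le_trans (le_of_eq ?_) key
  congr 1
  refine sum_congr rfl fun n _ => ?_
  simp only [phR]
  rw [add_sub_cancel_left]

end Pool.Agent.W134.GR
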